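import Pool.Agent.H355R3.UF.Stmts

/-! TASK I of H355-UF (helper568). -/

set_option autoImplicit false

namespace H568R3.UF

open H355R3 H355R3.UF RegularWreathProduct

/-- commutator trick -/
theorem nilp_of_normal {M K : Type} [Group M] [Group K]
    (Q : Subgroup (RegularWreathProduct M K)) (hn : Q.Normal) (hQ : Group.IsNilpotent Q)
    (q : RegularWreathProduct M K) (hq : q ∈ Q) (hq1 : q.right ≠ 1) : Group.IsNilpotent M := by
  classical
  let R : Subgroup (RegularWreathProduct M K) := Q ⊓ (rightHom : RegularWreathProduct M K →* K).ker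
  have hR : ∀ r ∈ R, r.right = 1 := fun r hr => hr.2
  have hRQ : R ≤ Q := inf_le_left
  have hRn : Group.IsNilpotent R := by
    have h1 : Group.IsNilpotent (R.subgroupOf Q) := inferInstance
    exact Group.nilpotent_of_mulEquiv (Subgroup.subgroupOfEquivOfLe hRQ)
  have hsurj : Function.Surjective (coord R hR 1) := by
    intro m
    let b : RegularWreathProduct M K := ⟨Pi.mulSingle 1 m, 1⟩
    have hc : b * q * b⁻¹ * q⁻¹ ∈ Q := by
      have h1 : q * b⁻¹ * q⁻¹ ∈ (⊤ : Subgroup (RegularWreathProduct M K)) := trivial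
      exact Q.mul_mem (hn.conj_mem q hq b) (Q.inv_mem hq)
    have hr : (b * q * b⁻¹ * q⁻¹).right = 1 := by simp [b]
    refine ⟨⟨b * q * b⁻¹ * q⁻¹, hc, hr⟩, ?_⟩
    show (b * q * b⁻¹ * q⁻¹).left 1 = m
    have hne : q.right⁻¹ ≠ 1 := inv_ne_one.2 hq1
    simp [b, Pi.mulSingle_eq_of_ne hne]
  exact Group.nilpotent_of_surjective _ hsurj

theorem prime_of_simple (e : ℕ) {K : Type} [Group K] [Finite K] (hu : ∃ u : K, u ^ e ≠ 1)
    (T : Type) [Group T] [Finite T] [IsSimpleGroup T]
    (h : Group.IsNilpotent (powSub e (RegularWreathProduct T K))) :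
    ∃ p : ℕ, p.Prime ∧ Nat.card T = p ∧ IsPGroup p (powSub e K) := by
  have hmap := powSub_map e (rightHom : RegularWreathProduct T K →* K) rightHom_surj
  rcases nilp_normal _ inferInstance h with h1 | ⟨p, hp, hT, hK⟩
  · exfalso
    obtain ⟨u, hu⟩ := hu
    apply hu
    have h2 : powSub e K = ⊥ := by rw [← hmap, h1, Subgroup.map_bot]
    exact (powSub_eq_bot_iff e K).1 h2 u
  · refine ⟨p, hp, hT, ?_⟩
    rw [← hmap]
    exact hK.map _

theorem prime_unique (e : ℕ) {K : Type} [Group K] [Finite K] (hu : ∃ u : K, u ^ e ≠ 1) {p q : ℕ}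
    (hp : p.Prime) (hq : q.Prime) (h1 : IsPGroup p (powSub e K)) (h2 : IsPGroup q (powSub e K)) :
    p = q := by
  have : Fact p.Prime := ⟨hp⟩
  have : Fact q.Prime := ⟨hq⟩
  have hb : powSub e K ≠ ⊥ := by
    intro h
    obtain ⟨u, hu⟩ := hu
    exact hu ((powSub_eq_bot_iff e K).1 h u)
  have hcard : Nat.card (powSub e K) ≠ 1 := by
    intro h'
    exact hb (Subgroup.eq_bot_of_card_eq _ h')
  obtain ⟨n, hn⟩ := h1.exists_card_eq
  obtain ⟨m, hm⟩ := h2.exists_card_eq
  have hn0 : n ≠ 0 := by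
    rintro rfl
    exact hcard (by rw [hn, pow_zero])
  have h3 : p ∣ q ^ m := by
    rw [← hm, hn]
    exact dvd_pow_self p hn0
  exact (Nat.prime_dvd_prime_iff_eq hp hq).1 (hp.dvd_of_dvd_pow h3)

/-- **Task I**. -/
theorem taskI : TaskI := by
  intro hN e A K _ _ hA hnil hu
  obtain ⟨T, i1, i2, i3, hT⟩ := exists_simple_mem A hA
  obtain ⟨p, hp, hTp, hKp⟩ := prime_of_simple e hu T (hnil T hT)
  refine ⟨p, hp, ?_⟩
  intro M _ _ hM
  have hMn : Group.IsNilpotent M := by
    obtain ⟨u, hu⟩ := hu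
    refine nilp_of_normal (powSub e (RegularWreathProduct M K)) inferInstance (hnil M hM)
      ((⟨1, u⟩ : RegularWreathProduct M K) ^ e) ?_ ?_
    · exact Subgroup.subset_closure ⟨_, rfl⟩
    · have h1 : ((⟨1, u⟩ : RegularWreathProduct M K) ^ e).right = u ^ e := by
        have := map_pow (rightHom : RegularWreathProduct M K →* K) (⟨1, u⟩ : RegularWreathProduct M K) e
        exact this
      rw [h1]; exact hu
  have hprime : ∀ q : ℕ, q.Prime → q ∣ Nat.card M → q = p := by
    intro q hq hqM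
    have : Fact q.Prime := ⟨hq⟩
    obtain ⟨f, hf⟩ := hN M hMn q hqM
    have hZ : A.Mem (Zp q) := A.mem_of_surjective f hf hM
    have hs : IsSimpleGroup (Zp q) := isSimpleGroup_of_prime_card (card_Zp q)
    obtain ⟨q', hq', hc, hKq⟩ := prime_of_simple e hu (Zp q) (hnil (Zp q) hZ)
    rw [card_Zp] at hc
    subst hc
    exact prime_unique e hu hq hp hKq hKp
  have : Fact p.Prime := ⟨hp⟩
  rw [IsPGroup.iff_card]
  refine ⟨(Nat.card M).primeFactorsList.length, ?_⟩
  refine Nat.eq_prime_pow_of_unique_prime_dvd Nat.card_pos.ne' ?_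
  intro d hd hdd
  exact hprime d hd hdd

end H568R3.UF
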